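import Mathlib

/-!
# Two symmetric cubic inequalities and the finite inequality behind the theorem

`l i` are the eigenvalues of the Jacobi operator at a unit vector; all are at least `d`, their sum is `5`.
-/

set_option autoImplicit false

open scoped BigOperators

namespace Pool.Agent.K1H63.Neg

theorem g2_poly (x0 x1 x2 x3 x4 : ℝ) (h0 : 0 ≤ x0) (h1 : 0 ≤ x1) (h2 : 0 ≤ x2) (h3 : 0 ≤ x3)
    (h4 : 0 ≤ x4) :
    0 ≤ 6 * ((x0 + x1 + x2 + x3 + x4) ^ 3 + (x1 + x2 + x3 + x4) ^ 3 + (x2 + x3 + x4) ^ 3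
        + (x3 + x4) ^ 3 + x4 ^ 3)
      - 5 * ((x0 + x1 + x2 + x3 + x4) ^ 2 + (x1 + x2 + x3 + x4) ^ 2 + (x2 + x3 + x4) ^ 2
        + (x3 + x4) ^ 2 + x4 ^ 2) * (x0 + 2 * x1 + 3 * x2 + 4 * x3 + 5 * x4)
      + (x0 + 2 * x1 + 3 * x2 + 4 * x3 + 5 * x4) ^ 3 := by
  have h : 0 ≤ 6 * ((x0 + x1 + x2 + x3 + x4) ^ 3 + (x1 + x2 + x3 + x4) ^ 3 + (x2 + x3 + x4) ^ 3
        + (x3 + x4) ^ 3 + x4 ^ 3)
      - 5 * ((x0 + x1 + x2 + x3 + x4) ^ 2 + (x1 + x2 + x3 + x4) ^ 2 + (x2 + x3 + x4) ^ 2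
        + (x3 + x4) ^ 2 + x4 ^ 2) * (x0 + 2 * x1 + 3 * x2 + 4 * x3 + 5 * x4)
      + (x0 + 2 * x1 + 3 * x2 + 4 * x3 + 5 * x4) ^ 3 - 2 * (x0 * (x0 - x4 / 2) ^ 2) := by
    ring_nf
    positivity
  have := mul_nonneg h0 (sq_nonneg (x0 - x4 / 2))
  linarith

theorem g3_poly (x0 x1 x2 x3 x4 : ℝ) (h0 : 0 ≤ x0) (h1 : 0 ≤ x1) (h2 : 0 ≤ x2) (h3 : 0 ≤ x3)
    (h4 : 0 ≤ x4) :
    0 ≤ 12 * ((x0 + x1 + x2 + x3 + x4) ^ 3 + (x1 + x2 + x3 + x4) ^ 3 + (x2 + x3 + x4) ^ 3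
        + (x3 + x4) ^ 3 + x4 ^ 3)
      - 7 * ((x0 + x1 + x2 + x3 + x4) ^ 2 + (x1 + x2 + x3 + x4) ^ 2 + (x2 + x3 + x4) ^ 2
        + (x3 + x4) ^ 2 + x4 ^ 2) * (x0 + 2 * x1 + 3 * x2 + 4 * x3 + 5 * x4)
      + (x0 + 2 * x1 + 3 * x2 + 4 * x3 + 5 * x4) ^ 3 := by
  ring_nf
  positivity

/-- symmetric cubic inequalities for five nonnegative numbers -/
theorem g_fin (v : Fin 5 → ℝ) (hv : ∀ i, 0 ≤ v i) :
    0 ≤ 6 * ∑ i, v i ^ 3 - 5 * (∑ i, v i ^ 2) * (∑ i, v i) + (∑ i, v i) ^ 3 ∧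
      0 ≤ 12 * ∑ i, v i ^ 3 - 7 * (∑ i, v i ^ 2) * (∑ i, v i) + (∑ i, v i) ^ 3 := by
  set σ := Tuple.sort v
  set m : Fin 5 → ℝ := v ∘ σ with hm
  have hmono : Monotone m := Tuple.monotone_sort v
  have e1 : ∑ i, v i = ∑ i, m i := (Equiv.sum_comp σ v).symm
  have e2 : ∑ i, v i ^ 2 = ∑ i, m i ^ 2 := (Equiv.sum_comp σ fun i => v i ^ 2).symm
  have e3 : ∑ i, v i ^ 3 = ∑ i, m i ^ 3 := (Equiv.sum_comp σ fun i => v i ^ 3).symm
  rw [e1, e2, e3]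
  have m0 : 0 ≤ m 0 := hv _
  have m1 : m 0 ≤ m 1 := hmono (by decide)
  have m2 : m 1 ≤ m 2 := hmono (by decide)
  have m3 : m 2 ≤ m 3 := hmono (by decide)
  have m4 : m 3 ≤ m 4 := hmono (by decide)
  simp only [Fin.sum_univ_five]
  have a := g2_poly (m 4 - m 3) (m 3 - m 2) (m 2 - m 1) (m 1 - m 0) (m 0) (by linarith)
    (by linarith) (by linarith) (by linarith) m0
  have b := g3_poly (m 4 - m 3) (m 3 - m 2) (m 2 - m 1) (m 1 - m 0) (m 0) (by linarith)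
    (by linarith) (by linarith) (by linarith) m0
  constructor
  · refine le_of_le_of_eq a ?_
    ring
  · refine le_of_le_of_eq b ?_
    ring

/-- the lower bound -/
noncomputable def psi (d : ℝ) : ℝ := 10 / 3 * (-45 + 176 * d - 136 * d ^ 2 + 32 * d ^ 3)

/-- the finite inequality -/
theorem fin_ineq {d : ℝ} (h1 : d ≤ 9 / 14) (l : Fin 5 → ℝ) (hl : ∀ i, d ≤ l i)
    (hs : ∑ i, l i = 5) :
    psi d ≤ 1250 - 328 * ∑ i, l i ^ 2 + 96 * ∑ i, l i ^ 3 := by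
  obtain ⟨g2, g3⟩ := g_fin (fun i => l i - d) (fun i => by linarith [hl i])
  set s : ℝ := 5 * (1 - d) with hsd
  have hs0 : 0 < s := by rw [hsd]; linarith
  have p1 : ∑ i, (l i - d) = s := by
    rw [Finset.sum_sub_distrib, hs]
    simp
    ring
  have p2 : ∑ i, (l i - d) ^ 2 = ∑ i, l i ^ 2 - 10 * d + 5 * d ^ 2 := by
    have : ∀ i, (l i - d) ^ 2 = l i ^ 2 - 2 * d * l i + d ^ 2 := fun i => by ring
    simp only [this, Finset.sum_add_distrib, Finset.sum_sub_distrib, ← Finset.mul_sum, hs]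
    simp
    ring
  have p3 : ∑ i, (l i - d) ^ 3 = ∑ i, l i ^ 3 - 3 * d * ∑ i, l i ^ 2 + 15 * d ^ 2 - 5 * d ^ 3 := by
    have : ∀ i, (l i - d) ^ 3 = l i ^ 3 - 3 * d * l i ^ 2 + 3 * d ^ 2 * l i - d ^ 3 :=
      fun i => by ring
    simp only [this, Finset.sum_add_distrib, Finset.sum_sub_distrib, ← Finset.mul_sum, hs]
    simp
    ring
  rw [p1, p2, p3] at g2 g3
  set A := ∑ i, l i ^ 2
  set B := ∑ i, l i ^ 3
  -- weights
  have w3 : 0 ≤ 80 * s - (328 - 288 * d) := by rw [hsd]; linarith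
  have w2 : 0 ≤ (328 - 288 * d) - 56 * s := by rw [hsd]; linarith
  have k2 := mul_nonneg w2 g2
  have k3 := mul_nonneg w3 g3
  -- `(2 w2 g2 + w3 g3) / (3 s)`
  have key : 3 * s * (1250 - 328 * A + 96 * B - psi d) =
      2 * (((328 - 288 * d) - 56 * s) * (6 * (B - 3 * d * A + 15 * d ^ 2 - 5 * d ^ 3)
          - 5 * (A - 10 * d + 5 * d ^ 2) * s + s ^ 3))
        + (80 * s - (328 - 288 * d)) * (12 * (B - 3 * d * A + 15 * d ^ 2 - 5 * d ^ 3)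
          - 7 * (A - 10 * d + 5 * d ^ 2) * s + s ^ 3) := by
    rw [hsd]
    unfold psi
    ring
  have h3 : 0 ≤ 3 * s * (1250 - 328 * A + 96 * B - psi d) := by
    rw [key]
    linarith
  have h4 : 0 ≤ 1250 - 328 * A + 96 * B - psi d := by
    by_contra hneg
    push Not at hneg
    have := mul_neg_of_pos_of_neg (by positivity : 0 < 3 * s) hneg
    linarith
  linarith

end Pool.Agent.K1H63.Neg
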