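import Pool.Agent.K1H63.Boch.Core
import Pool.Agent.K1H63.Neg.Poly

/-!
# The Gauss-Bonnet-Chern integral of a negative Einstein metric with an upper curvature bound
-/

set_option autoImplicit false

open scoped BigOperators
open MeasureTheory

namespace Pool.Agent.K1H63.Neg

open Hopf6 Pool.Agent.W714.HE Pool.Agent.K1H63.Boch

/-- all sectional curvatures of the components `R` are at least `b` -/
def SecGE (R : Ten) (b : ℝ) : Prop :=
  ∀ y z : Fin 6 → ℝ, ∑ a, y a ^ 2 = 1 → ∑ a, z a ^ 2 = 1 → ∑ a, y a * z a = 0 → b ≤ quad R y z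

/-- the function of a unit vector whose average is `(gb R + (64 / 5) boch 5 R) / 64` -/
noncomputable def fN (R : Ten) (x : Fin 6 → ℝ) : ℝ := 1250 - 328 * mJJ R x + 96 * mJJJ R x

theorem av_fN {ι : Type} [Fintype ι] (D : Design ι) {R : Ten} (hR : IsCurv R)
    (hE : ∀ a b, Rc R a b = if a = b then 5 else 0) :
    64 * D.av (fN R) = gb R + 64 / 5 * boch 5 R := by
  have e : fN R = comb R 1250 0 0 0 (-328) 0 0 0 0 0 0 0 96 0 0 0 0 0 0 0 0 0 := by
    funext x
    unfold fN comb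
    ring
  unfold boch
  rw [e, av_comb D hR, gb_eq hR, sc_ein hE, nR_ein hE, I4_ein hE, I5_ein hE,
    Pool.Agent.W714.HE.I6_ein hE]
  ring

theorem core_neg {R : Ten} (hR : IsCurv R) (hE : ∀ a b, Rc R a b = if a = b then 5 else 0) {d : ℝ}
    (hd : d ≤ 9 / 14) (h : SecGE R d) : 64 * psi d ≤ gb R + 64 / 5 * boch 5 R := by
  obtain ⟨ι, _, ⟨D⟩⟩ := exists_design
  have h1 : 0 ≤ D.av (fun x => fN R x + -(psi d)) :=
    D.av_nonneg fun i => by
      obtain ⟨w, l, o1, o2, hl, hs, -, t2, t3, -⟩ := frame_data hR hE (D.unit i)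
      obtain ⟨s1, -⟩ := frame_sec (R := R) (D.unit i) o1 o2 (Q := fun t => d ≤ t) h
      have := fin_ineq hd l (fun i => by rw [← hl i]; exact s1 i) hs
      unfold fN
      rw [t2, t3]
      linarith
  have h2 : D.av (fun x => fN R x + -(psi d)) = D.av (fN R) + -(psi d) := by
    rw [Design.av_add, Design.av_one]
  have h3 := av_fN D hR hE
  rw [h2] at h1
  linarith

/-- the pointwise inequality, for a tensor with negative Ricci curvature -/
theorem core_neg_scaled {R : Ten} (hR : IsCurv R) {κ d : ℝ} (hκ : 0 < κ) (hd : d ≤ 9 / 14)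
    (hE : ∀ a b, Rc R a b = if a = b then -(5 * κ) else 0) (h : SecLE R (-(d * κ))) :
    gb R + 64 / 5 * boch (-(5 * κ)) R ≤ -(64 * psi d * κ ^ 3) := by
  have h1 := core_neg (scl_curv hR (-κ⁻¹)) (R := scl (-κ⁻¹) R) (d := d) (hd := hd) (by
    intro a b
    rw [Rc_scl, hE]
    split_ifs
    · field_simp
    · simp) (by
    intro y z hy hz hyz
    rw [quad_scl']
    have h2 := mul_le_mul_of_nonneg_left (h y z hy hz hyz) (inv_nonneg.2 hκ.le)
    have h3 : κ⁻¹ * -(d * κ) = -d := by field_simp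
    rw [h3] at h2
    linarith)
  have h2 : boch 5 (scl (-κ⁻¹) R) = -(κ⁻¹ ^ 3 * boch (-(5 * κ)) R) := by
    have := boch_scl (-(5 * κ)) (-κ⁻¹) R
    have e : -κ⁻¹ * -(5 * κ) = 5 := by field_simp
    rw [e] at this
    rw [this]
    ring
  rw [gb_scl, h2] at h1
  have hκ3 : 0 < κ ^ 3 := by positivity
  have h4 := mul_le_mul_of_nonneg_right h1 hκ3.le
  have h5 : ((-κ⁻¹) ^ 3 * gb R + 64 / 5 * -(κ⁻¹ ^ 3 * boch (-(5 * κ)) R)) * κ ^ 3 =
      -(gb R + 64 / 5 * boch (-(5 * κ)) R) := by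
    field_simp
    ring
  rw [h5] at h4
  linarith

end Pool.Agent.K1H63.Neg

namespace Pool.Agent.K1H63.Boch.FrameCalculus

open Hopf6 Pool.Agent.K1H63.Neg

variable {P : Type} [MeasurableSpace P] {μ : Measure P} (F : FrameCalculus P μ)

/-- The Gauss-Bonnet-Chern integral of a closed Einstein manifold of dimension six with negative
scalar curvature and an upper curvature bound. -/
theorem integral_negEin [IsFiniteMeasure μ] {κ : ℝ} {d : P → ℝ} (hκ : 0 < κ)
    (hd : ∀ p, d p ≤ 9 / 14) (hi : Integrable (fun p => psi (d p)) μ)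
    (hE : ∀ p, IsEinstein (F.T p) (-(5 * κ))) (h : ∀ p, SecLE (F.T p) (-(d p * κ))) :
    ∫ p, F.gbc p ∂μ ≤ -(roundGB κ * ∫ p, psi (d p) / 90 ∂μ) := by
  have hb := F.integral_boch_nonneg hE
  have hbi := F.boch_integrable hE
  have hi2 : Integrable (fun p => -(64 * psi (d p) * κ ^ 3)) μ :=
    ((hi.const_mul 64).mul_const (κ ^ 3)).neg
  have h1 : ∫ p, (gb (F.T p) + 64 / 5 * boch (-(5 * κ)) (F.T p)) ∂μ ≤
      ∫ p, -(64 * psi (d p) * κ ^ 3) ∂μ :=
    integral_mono (F.gb_integrable.add (hbi.const_mul (64 / 5))) hi2 fun p =>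
      core_neg_scaled (F.curv p) hκ (hd p) (hE p) (h p)
  have e1 : ∫ p, (gb (F.T p) + 64 / 5 * boch (-(5 * κ)) (F.T p)) ∂μ =
      ∫ p, gb (F.T p) ∂μ + 64 / 5 * ∫ p, boch (-(5 * κ)) (F.T p) ∂μ := by
    rw [integral_add F.gb_integrable (hbi.const_mul (64 / 5)), integral_const_mul]
  have e2 : ∫ p, -(64 * psi (d p) * κ ^ 3) ∂μ = -(64 * κ ^ 3 * ∫ p, psi (d p) ∂μ) := by
    rw [MeasureTheory.integral_neg, ← integral_const_mul]
    congr 1
    exact integral_congr_ae (Filter.Eventually.of_forall fun p => by ring)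
  rw [e1, e2] at h1
  have h2 : ∫ p, gb (F.T p) ∂μ ≤ -(64 * κ ^ 3 * ∫ p, psi (d p) ∂μ) := by linarith
  have hpi := Real.pi_pos
  have e3 : ∫ p, psi (d p) / 90 ∂μ = 1 / 90 * ∫ p, psi (d p) ∂μ := by
    rw [← integral_const_mul]
    exact integral_congr_ae (Filter.Eventually.of_forall fun p => by ring)
  rw [e3]
  unfold gbc
  rw [integral_const_mul]
  calc _ ≤ 1 / ((8 * Real.pi) ^ 3 * 6) * -(64 * κ ^ 3 * ∫ p, psi (d p) ∂μ) :=
        mul_le_mul_of_nonneg_left h2 (by positivity)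
    _ = _ := by
        unfold roundGB
        field_simp
        ring

end Pool.Agent.K1H63.Boch.FrameCalculus
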